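import Mathlib

namespace Pool.Agent.Results.MP_3790b3_al.Yes

/-- A self-similar action of the group `G` over the alphabet `X`: a faithful action `act` on
words together with restrictions `res g w = g|_w`. -/
structure SelfSim (G X : Type) [Group G] where
  act : G → List X → List X
  res : G → List X → G
  act_one : ∀ w, act 1 w = w
  act_mul : ∀ g h w, act (g * h) w = act g (act h w)
  faithful : ∀ g h, (∀ w, act g w = act h w) → g = h
  act_append : ∀ g u v, act g (u ++ v) = act g u ++ act (res g u) v
  res_append : ∀ g u v, res g (u ++ v) = res (res g u) v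
  res_mul : ∀ g h u, res (g * h) u = res g (act h u) * res h u
  act_nil : ∀ g, act g [] = []
  res_nil : ∀ g, res g [] = g

variable {G X : Type} [Group G]

/-- Every element has finitely many restrictions. -/
def FiniteState (S : SelfSim G X) : Prop := ∀ g, (Set.range (S.res g)).Finite

/-- Finite propagation of the Zappa-Szep product. -/
def FinProp (S : SelfSim G X) : Prop := ∀ g h : G, ∃ x : List X → G, x [] = 1 ∧
  (Set.range fun w => (x (S.act g w))⁻¹ * S.res g w * x w).Finite ∧
  (Set.range fun w => (x (S.act h w))⁻¹ * S.res h w * x w).Finite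

abbrev V := ℕ → ZMod 2

def act (g : V) : List (ZMod 2) → List (ZMod 2) := List.mapIdx fun i a => g i + a

def sh (n : ℕ) (g : V) : V := fun i => g (i + n)

@[simp] theorem len (g w) : (act g w).length = w.length := by simp [act]

theorem act_add (g h w) : act (g + h) w = act g (act h w) := by
  simp [act, List.mapIdx_mapIdx, Function.comp_def, add_assoc]

theorem act_zero (w) : act 0 w = w := by
  apply List.ext_getElem <;> simp [act]

theorem act_congr {g h : V} {w} (e : act g w = act h w) (i) (hi : i < w.length) : g i = h i := by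
  have := congrArg (fun l => l[i]?) e
  simpa [act, hi] using this

def S : SelfSim (Multiplicative V) (ZMod 2) where
  act g := act g.toAdd
  res g w := .ofAdd (sh w.length g.toAdd)
  act_one := act_zero
  act_mul g h := act_add _ _
  faithful g h e := by
    ext i
    exact act_congr (e (List.replicate (i + 1) 0)) i (by simp)
  act_append g u v := by simp [act, sh, List.mapIdx_append]
  res_append g u v := by
    ext i
    simp [sh, add_comm, add_left_comm]
  res_mul g h u := by
    ext i
    simp [sh]
  act_nil g := rfl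
  res_nil g := rfl

theorem two (g : V) : g + g = 0 := by
  ext i
  exact CharTwo.add_self_eq_zero _

theorem not_fs : ¬ FiniteState S := by
  intro h
  have h1 := h (.ofAdd fun i => if IsSquare i then 1 else 0)
  refine Set.infinite_range_of_injective (f := fun n : ℕ => S.res
    (.ofAdd fun i => if IsSquare i then 1 else 0) (List.replicate ((n + 1) ^ 2 + 1) 0)) ?_
    (h1.subset (by rintro _ ⟨n, rfl⟩; exact ⟨_, rfl⟩))
  intro m n e
  have k : ∀ m n : ℕ, m < n → ¬ (∀ i, IsSquare (i + ((m + 1) ^ 2 + 1)) ↔
      IsSquare (i + ((n + 1) ^ 2 + 1))) := by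
    intro m n hmn e
    obtain ⟨r, hr⟩ := (e (2 * m + 2)).1 ⟨m + 2, by ring⟩
    rcases le_or_gt r (n + 1) with h | h <;> nlinarith
  have e' : ∀ i, IsSquare (i + ((m + 1) ^ 2 + 1)) ↔ IsSquare (i + ((n + 1) ^ 2 + 1)) := by
    intro i
    have := congrFun (congrArg Multiplicative.toAdd e) i
    simp only [S, sh, toAdd_ofAdd, List.length_replicate] at this
    split_ifs at this with a b b <;> simp_all
  rcases lt_trichotomy m n with h | h | h
  · exact (k m n h e').elim
  · exact h
  · exact (k n m h fun i => (e' i).symm).elim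

theorem fp : FinProp S := by
  classical
  intro g h
  let K : AddSubgroup V := AddSubgroup.closure {g.toAdd, h.toAdd}
  have hK : (K : Set V).Finite := by
    have : Finite K := AddCommGroup.finite_of_fg_isAddTorsion _ (fun x =>
      isOfFinAddOrder_iff_nsmul_eq_zero.2 ⟨2, by norm_num, by
        ext1; simpa [two_nsmul] using two _⟩)
    exact Set.toFinite _
  let r : Setoid (List (ZMod 2)) := ⟨fun u v => ∃ k ∈ K, act k u = v,
    fun u => ⟨0, K.zero_mem, act_zero u⟩,
    fun ⟨k, hk, e⟩ => ⟨k, hk, by rw [← e, ← act_add, two, act_zero]⟩,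
    fun ⟨k, hk, e⟩ ⟨l, hl, f⟩ => ⟨l + k, K.add_mem hl hk, by rw [act_add, e, f]⟩⟩
  have ex : ∀ w, ∃ k ∈ K, act k (Quotient.mk r w).out = w ∧ (w = [] → k = 0) := by
    intro w
    by_cases hw : w = []
    · obtain ⟨k, -, e⟩ := r.symm (Quotient.mk_out (s := r) w)
      refine ⟨0, K.zero_mem, ?_, fun _ => rfl⟩
      rw [act_zero, ← e, hw]
      rfl
    · obtain ⟨k, hk, e⟩ := Quotient.mk_out (s := r) w
      exact ⟨k, hk, e, fun h => (hw h).elim⟩
  choose k hk e h0 using ex
  have main : ∀ f : Multiplicative V, f.toAdd ∈ K → (Set.range fun w =>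
      (Multiplicative.ofAdd (sh (S.act f w).length (k (S.act f w))))⁻¹ * S.res f w *
        .ofAdd (sh w.length (k w))).Finite := by
    intro f hf
    -- every value is a shift `sh n c` of some `c ∈ K` vanishing below `n`
    have fin : (⋃ c ∈ (K : Set V), {y | ∃ n, (∀ i < n, c i = 0) ∧ y = sh n c}).Finite := by
      refine hK.biUnion fun c _ => ?_
      by_cases hc : c = 0
      · refine (Set.finite_singleton 0).subset ?_
        rintro _ ⟨n, -, rfl⟩
        rw [hc]
        rfl
      · obtain ⟨j, hj⟩ := Function.ne_iff.1 hc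
        refine ((Set.finite_le_nat j).image fun n => sh n c).subset ?_
        rintro _ ⟨n, hn, rfl⟩
        exact ⟨n, not_lt.1 fun h => hj (hn j h), rfl⟩
    refine (fin.image Multiplicative.ofAdd).subset ?_
    rintro _ ⟨w, rfl⟩
    have q : Quotient.mk r (act f.toAdd w) = Quotient.mk r w :=
      (Quotient.sound (s := r) ⟨_, hf, rfl⟩).symm
    have e1 := e (act f.toAdd w)
    rw [q] at e1
    conv_rhs at e1 => rw [← e w, ← act_add]
    have hl : (Quotient.mk r w).out.length = w.length := by
      conv_rhs => rw [← e w, len]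
    refine ⟨sh w.length (-k (act f.toAdd w) + f.toAdd + k w), ?_, ?_⟩
    · simp only [Set.mem_iUnion]
      refine ⟨_, K.add_mem (K.add_mem (K.neg_mem (hk _)) hf) (hk _), w.length, fun i hi => ?_, rfl⟩
      have := act_congr e1 i (by rwa [hl])
      simp only [Pi.add_apply, Pi.neg_apply] at this ⊢
      rw [this]
      ring
    · ext i
      simp [S, sh]
  refine ⟨fun w => .ofAdd (sh w.length (k w)), by beta_reduce; rw [h0 [] rfl]; rfl, main g ?_, main h ?_⟩ <;>
    exact AddSubgroup.subset_closure (by simp)

theorem result : ∃ (G X : Type) (_ : Group G) (_ : Finite X) (S : SelfSim G X),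
    ¬ FiniteState S ∧ FinProp S :=
  ⟨_, _, _, inferInstance, S, not_fs, fp⟩

end Pool.Agent.Results.MP_3790b3_al.Yes
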